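import Pool.Agent.H60.Sz.Main
import Pool.Agent.H60.Sy.ConvS

/-!
Symplectic forms on `ℝ²ⁿ` that are standard off a compact set: the form is globally standard as soon
as its core embeds symplectically in the standard space.
-/

set_option autoImplicit false

open scoped Topology
open Set Metric

namespace Pool.Agent.Results.MP_39f516_gt.CoreEmbedding

/-- `ℝ²ⁿ` with coordinates `(x, y)`. -/
abbrev E (n : ℕ) : Type := (Fin n → ℝ) × (Fin n → ℝ)

/-- Two-forms on `ℝ²ⁿ`. -/
abbrev Form (n : ℕ) : Type := E n → ContinuousAlternatingMap ℝ (E n) ℝ (Fin 2)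

/-- The standard form `ω₀ = ∑ dxᵢ ∧ dyᵢ`. -/
def stdForm (n : ℕ) (v w : E n) : ℝ := ∑ i, (v.1 i * w.2 i - v.2 i * w.1 i)

/-- The derivative of the form `ω` at `x` in the direction `u`, evaluated at `(v, w)`. -/
noncomputable def dForm {n : ℕ} (ω : Form n) (x u v w : E n) : ℝ := fderiv ℝ ω x u ![v, w]

/-- Smooth forms. -/
def IsSmoothForm {n : ℕ} (ω : Form n) : Prop := ContDiff ℝ ((⊤ : ℕ∞) : WithTop ℕ∞) ω

/-- Closed forms: `dω = 0`. -/
def IsClosedForm {n : ℕ} (ω : Form n) : Prop :=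
  ∀ x u v w : E n, dForm ω x u v w - dForm ω x v u w + dForm ω x w u v = 0

/-- Nondegenerate forms. -/
def IsNondegenerate {n : ℕ} (ω : Form n) : Prop :=
  ∀ x v : E n, v ≠ 0 → ∃ w : E n, ω x ![v, w] ≠ 0

/-- Symplectic forms: smooth, closed and nondegenerate. -/
def IsSymplectic {n : ℕ} (ω : Form n) : Prop :=
  IsSmoothForm ω ∧ IsClosedForm ω ∧ IsNondegenerate ω

/-- `φ` is smooth on `U`. -/
def SmoothOn {n : ℕ} (φ : E n → E n) (U : Set (E n)) : Prop :=
  ContDiffOn ℝ ((⊤ : ℕ∞) : WithTop ℕ∞) φ U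

/-- The derivative of `φ` at `x` in the direction `v`. -/
noncomputable def deriv {n : ℕ} (φ : E n → E n) (x v : E n) : E n := fderiv ℝ φ x v

/-- `φ` pulls the standard form back to `ω` at the points of `U`. -/
def PullsBack {n : ℕ} (φ : E n → E n) (ω : Form n) (U : Set (E n)) : Prop :=
  ∀ x ∈ U, ∀ v w : E n, stdForm n (deriv φ x v) (deriv φ x w) = ω x ![v, w]

/-- Some open neighbourhood of `C` in `(ℝ²ⁿ, ω)` embeds symplectically in `(ℝ²ⁿ, ω₀)`. -/
def EmbedsNear {n : ℕ} (ω : Form n) (C : Set (E n)) : Prop :=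
  ∃ (U : Set (E n)) (φ : E n → E n), IsOpen U ∧ C ⊆ U ∧ SmoothOn φ U ∧ InjOn φ U ∧
    PullsBack φ ω U

/-- `(ℝ²ⁿ, ω)` is symplectomorphic to `(ℝ²ⁿ, ω₀)`. -/
def GloballyStandard {n : ℕ} (ω : Form n) : Prop :=
  ∃ Φ Ψ : E n → E n, SmoothOn Φ univ ∧ SmoothOn Ψ univ ∧
    (∀ x, Ψ (Φ x) = x) ∧ (∀ y, Φ (Ψ y) = y) ∧ PullsBack Φ ω univ

/-- Compact sets that are star-shaped about one of their points. -/
def CompactStar {n : ℕ} (S : Set (E n)) : Prop := IsCompact S ∧ ∃ a ∈ S, StarConvex ℝ a S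

/-- `ω` agrees with the standard form off `K`. -/
def StandardOff {n : ℕ} (ω : Form n) (K : Set (E n)) : Prop :=
  ∀ x ∉ K, ∀ v w : E n, ω x ![v, w] = stdForm n v w

/-- For a symplectic form which is standard off a compact set `K` of `ℝ²ⁿ`, `n ≥ 2`, the following are
equivalent: it is globally standard; every compact set has a neighbourhood that embeds
symplectically in the standard space; some compact star-shaped set containing `K` has such a
neighbourhood. -/
theorem result (n : ℕ) (hn : 2 ≤ n) (ω : Form n) (hω : IsSymplectic ω) (K : Set (E n))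
    (hK : IsCompact K) (hstd : StandardOff ω K) :
    List.TFAE [GloballyStandard ω,
      ∀ C : Set (E n), IsCompact C → EmbedsNear ω C,
      ∃ S : Set (E n), CompactStar S ∧ K ⊆ S ∧ EmbedsNear ω S] := by
  tfae_have 1 → 2 := by
    rintro ⟨Φ, Ψ, h1, _, h3, _, h5⟩ C _
    exact ⟨univ, Φ, isOpen_univ, subset_univ _, h1,
      (Function.LeftInverse.injective h3).injOn, h5⟩
  tfae_have 2 → 3 := by
    intro h
    obtain ⟨r, hr⟩ := hK.isBounded.subset_closedBall 0
    refine ⟨closedBall 0 (max r 0), ⟨isCompact_closedBall _ _, 0,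
      mem_closedBall_self (le_max_right _ _),
      (convex_closedBall _ _).starConvex (mem_closedBall_self (le_max_right _ _))⟩,
      hr.trans (closedBall_subset_closedBall (le_max_left _ _)), h _ (isCompact_closedBall _ _)⟩
  tfae_have 3 → 1 := by
    rintro ⟨S, ⟨hS, a, ha, hstar⟩, hKS, U, φ, hU, hSU, hφ, hinj, hpb⟩
    obtain ⟨κ, hκ, hT⟩ := Pool.Agent.H60.Sy.exists_symp hω.1 hω.2.1 hω.2.2
    have hom : ∀ v w : E n, Pool.Agent.H60.Sy.om0 n v w = stdForm n v w := fun v w =>
      Pool.Agent.H60.Sy.om0_apply v w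
    obtain ⟨F, hF⟩ := Pool.Agent.H60.Sz.main_star hn hκ hS ha hstar
      (fun x hx => by
        refine ContinuousLinearMap.ext fun v => ContinuousLinearMap.ext fun w => ?_
        rw [hT, hom]
        exact hstd x (fun h => hx (hKS h)) v w) hU hSU hφ hinj
      (fun x hx v w => by rw [hom, hT]; exact hpb x hx v w)
    refine ⟨F, F.symm, F.sm.contDiffOn, F.smi.contDiffOn, fun x => F.symm_apply_apply x,
      fun x => F.apply_symm_apply x, fun x _ v w => ?_⟩
    have h := congrFun hF x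
    have h2 := congrArg (fun A : Pool.Agent.H60.Sy.B2 (E n) => A v w) h
    simp only [Pool.Agent.H60.Sy.pb_apply, hT] at h2
    rw [← hom]; exact h2
  tfae_finish

end Pool.Agent.Results.MP_39f516_gt.CoreEmbedding
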