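import Pool.Agent.H60.NH.Fin

/-!
Weakly `n`-harmonic maps from the unit ball of `ℝⁿ` into an arbitrary compact manifold are
continuous for `n = 3` and `n = 4`.
-/

set_option autoImplicit false

open MeasureTheory Metric Set Filter Topology
open scoped ENNReal NNReal ContDiff

namespace Pool.Agent.Results.MP_d943ab_an.DimensionsThreeFour

/-- Euclidean space `ℝⁿ`. -/
abbrev E (n : ℕ) : Type := EuclideanSpace ℝ (Fin n)

/-- The standard basis vectors of `ℝⁿ`. -/
noncomputable def stdVec {n : ℕ} (i : Fin n) : E n := EuclideanSpace.single i (1 : ℝ)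

/-- The norm of a gradient with columns `a i`: `|a| = (∑ᵢ |a i|²)^(1/2)`. -/
noncomputable def gradNorm {n m : ℕ} (a : Fin n → E m) : ℝ := Real.sqrt (∑ i, ‖a i‖ ^ 2)

/-- The target: `N` is a nonempty compact subset of `ℝᵐ` and `π` is a smooth nearest point
projection onto `N`, defined on the `δ`-neighbourhood of `N`. Every closed (compact, without
boundary) smooth submanifold of `ℝᵐ` is such a set. -/
structure IsTarget {m : ℕ} (N : Set (E m)) (δ : ℝ) (π : E m → E m) : Prop where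
  compact : IsCompact N
  nonempty : N.Nonempty
  pos : 0 < δ
  mem : ∀ y, infDist y N < δ → π y ∈ N
  dist_eq : ∀ y, infDist y N < δ → dist y (π y) = infDist y N
  smooth : ContDiffOn ℝ ∞ π {y | infDist y N < δ}

/-- `v` belongs to the Sobolev space `W^{1,n}(Ω, ℝᵐ)` and `G x i` (`i = 1, …, n`) are its weak
partial derivatives. -/
structure IsWeakGrad {n m : ℕ} (Ω : Set (E n)) (v : E n → E m) (G : E n → Fin n → E m) :
    Prop where
  mem_v : MemLp v n (volume.restrict Ω)
  mem_G : ∀ i, MemLp (fun x => G x i) n (volume.restrict Ω)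
  eq : ∀ ψ : E n → ℝ, ContDiff ℝ ∞ ψ → HasCompactSupport ψ → tsupport ψ ⊆ Ω → ∀ i,
    ∫ x in Ω, (fderiv ℝ ψ x (stdVec i)) • v x = - ∫ x in Ω, ψ x • G x i

open Classical in
/-- The `n`-energy `E_n[v] = (1/n) ∫_Ω |∇v|ⁿ` of `v ∈ W^{1,n}(Ω, ℝᵐ)` (and `0` for the maps `v`
outside this space). -/
noncomputable def energy {n m : ℕ} (Ω : Set (E n)) (v : E n → E m) : ℝ :=
  if h : ∃ G : E n → Fin n → E m, IsWeakGrad Ω v G then
    (1 / (n : ℝ)) * ∫ x in Ω, gradNorm (h.choose x) ^ n
  else 0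

/-- `u ∈ W^{1,n}(Bⁿ, N)` is weakly `n`-harmonic: `E_n` is critical at `u` for the variations
`π ∘ (u + t φ)`, where `φ` is smooth with compact support in the unit ball. -/
structure IsWeaklyNHarmonic {n m : ℕ} (N : Set (E m)) (π : E m → E m) (u : E n → E m) :
    Prop where
  sobolev : ∃ G : E n → Fin n → E m, IsWeakGrad (ball 0 1) u G
  mem : ∀ᵐ x ∂(volume.restrict (ball (0 : E n) 1)), u x ∈ N
  crit : ∀ φ : E n → E m, ContDiff ℝ ∞ φ → HasCompactSupport φ → tsupport φ ⊆ ball 0 1 →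
    HasDerivAt (fun t : ℝ => energy (ball (0 : E n) 1) (fun x => π (u x + t • φ x))) 0 0

theorem weakGrad_iff {n m : ℕ} (Ω : Set (E n)) (v : E n → E m) (G : E n → Fin n → E m) :
    IsWeakGrad Ω v G ↔ H60NH.IsWeakGrad Ω v G :=
  ⟨fun h => ⟨h.mem_v, h.mem_G, h.eq⟩, fun h => ⟨h.mem_v, h.mem_G, h.eq⟩⟩

theorem energy_eq {n m : ℕ} (Ω : Set (E n)) (v : E n → E m) :
    energy Ω v = H60NH.energy Ω v := by
  have hp : (fun G : E n → Fin n → E m => IsWeakGrad Ω v G) =
      (fun G : E n → Fin n → E m => H60NH.IsWeakGrad Ω v G) := by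
    funext G
    exact propext (weakGrad_iff Ω v G)
  classical
  unfold energy H60NH.energy
  by_cases h : ∃ G : E n → Fin n → E m, IsWeakGrad Ω v G
  · have h' : ∃ G : E n → Fin n → E m, H60NH.IsWeakGrad Ω v G := by
      obtain ⟨G, hG⟩ := h
      exact ⟨G, (weakGrad_iff Ω v G).1 hG⟩
    rw [dif_pos h, dif_pos h']
    have hc : h.choose = h'.choose := by
      have key : ∀ (p q : (E n → Fin n → E m) → Prop) (hpq : p = q) (h1 : ∃ G, p G)
          (h2 : ∃ G, q G), h1.choose = h2.choose := by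
        intro p q hpq
        subst hpq
        intro h1 h2
        rfl
      exact key _ _ hp h h'
    rw [hc]
    rfl
  · have h' : ¬ ∃ G : E n → Fin n → E m, H60NH.IsWeakGrad Ω v G := by
      rintro ⟨G, hG⟩
      exact h ⟨G, (weakGrad_iff Ω v G).2 hG⟩
    rw [dif_neg h, dif_neg h']

/-- Let `n = 3` or `n = 4` and let `N ⊆ ℝᵐ` be an arbitrary compact target. Every weakly
`n`-harmonic map `u ∈ W^{1,n}(Bⁿ, N)` has a representative that is continuous on `Bⁿ`. -/
theorem result (n m : ℕ) (hn : n = 3 ∨ n = 4) (N : Set (E m)) (δ : ℝ) (π : E m → E m)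
    (hN : IsTarget N δ π) (u : E n → E m) (hu : IsWeaklyNHarmonic N π u) :
    ∃ v : E n → E m, ContinuousOn v (ball (0 : E n) 1) ∧
      v =ᵐ[volume.restrict (ball (0 : E n) 1)] u := by
  have hN' : H60NH.IsTarget N δ π :=
    ⟨hN.compact, hN.nonempty, hN.pos, hN.mem, hN.dist_eq, hN.smooth⟩
  have hu' : H60NH.IsWeaklyNHarmonic N π u := by
    refine ⟨?_, hu.mem, ?_⟩
    · obtain ⟨G, hG⟩ := hu.sobolev
      exact ⟨G, (weakGrad_iff _ _ _).1 hG⟩
    · intro φ h1 h2 h3
      have h4 := hu.crit φ h1 h2 h3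
      have h5 : (fun t : ℝ => energy (ball (0 : E n) 1) (fun x => π (u x + t • φ x))) =
          (fun t : ℝ => H60NH.energy (ball (0 : E n) 1) (fun x => π (u x + t • φ x))) := by
        funext t
        exact energy_eq _ _
      rw [h5] at h4
      exact h4
  exact H60NH.regularity n m hn N δ π hN' u hu'

end Pool.Agent.Results.MP_d943ab_an.DimensionsThreeFour
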