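import Pool.Agent.H60.Sk.Pull
import Pool.Agent.H60.Sz.Main
import Pool.Agent.H60.Sy.ConvS

/-!
Symplectic forms on `ℝ²ⁿ` that are standard off a compact set: the form is globally standard as soon
as near the skeleton of one Liouville form there is a symplectic immersion in the standard space whose
double points on the skeleton are locally small.
-/

set_option autoImplicit false

open scoped Topology ENNReal
open Set Metric MeasureTheory

namespace Pool.Agent.Results.MP_39f516_gt.LiouvilleSkeleton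

/-- `ℝ²ⁿ` with coordinates `(x, y)`. -/
abbrev E (n : ℕ) : Type := (Fin n → ℝ) × (Fin n → ℝ)

/-- Two-forms on `ℝ²ⁿ`. -/
abbrev Form (n : ℕ) : Type := E n → ContinuousAlternatingMap ℝ (E n) ℝ (Fin 2)

/-- One-forms on `ℝ²ⁿ`. -/
abbrev OneForm (n : ℕ) : Type := E n → (E n →L[ℝ] ℝ)

/-- The standard form `ω₀ = ∑ dxᵢ ∧ dyᵢ`. -/
def stdForm (n : ℕ) (v w : E n) : ℝ := ∑ i, (v.1 i * w.2 i - v.2 i * w.1 i)

/-- The derivative of the form `ω` at `x` in the direction `u`, evaluated at `(v, w)`. -/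
noncomputable def dForm {n : ℕ} (ω : Form n) (x u v w : E n) : ℝ := fderiv ℝ ω x u ![v, w]

/-- Smooth forms. -/
def IsSmoothForm {n : ℕ} (ω : Form n) : Prop := ContDiff ℝ ((⊤ : ℕ∞) : WithTop ℕ∞) ω

/-- Closed forms: `dω = 0`. -/
def IsClosedForm {n : ℕ} (ω : Form n) : Prop :=
  ∀ x u v w : E n, dForm ω x u v w - dForm ω x v u w + dForm ω x w u v = 0

/-- Nondegenerate forms. -/
def IsNondegenerate {n : ℕ} (ω : Form n) : Prop :=
  ∀ x v : E n, v ≠ 0 → ∃ w : E n, ω x ![v, w] ≠ 0

/-- Symplectic forms: smooth, closed and nondegenerate. -/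
def IsSymplectic {n : ℕ} (ω : Form n) : Prop :=
  IsSmoothForm ω ∧ IsClosedForm ω ∧ IsNondegenerate ω

/-- `ω` agrees with the standard form off `K`. -/
def StandardOff {n : ℕ} (ω : Form n) (K : Set (E n)) : Prop :=
  ∀ x ∉ K, ∀ v w : E n, ω x ![v, w] = stdForm n v w

/-- `f` is smooth on `U`. -/
def SmoothOn {n : ℕ} (f : E n → E n) (U : Set (E n)) : Prop :=
  ContDiffOn ℝ ((⊤ : ℕ∞) : WithTop ℕ∞) f U

/-- The derivative of `f` at `x` in the direction `v`. -/
noncomputable def deriv {n : ℕ} (f : E n → E n) (x v : E n) : E n := fderiv ℝ f x v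

/-- `f` pulls the standard form back to `ω` at the points of `U`. -/
def PullsBack {n : ℕ} (f : E n → E n) (ω : Form n) (U : Set (E n)) : Prop :=
  ∀ x ∈ U, ∀ v w : E n, stdForm n (deriv f x v) (deriv f x w) = ω x ![v, w]

/-- `f` is smooth near `C` and pulls the standard form back to `ω` near `C`. -/
def ImmersesNear {n : ℕ} (ω : Form n) (C : Set (E n)) (f : E n → E n) : Prop :=
  ∃ U : Set (E n), IsOpen U ∧ C ⊆ U ∧ SmoothOn f U ∧ PullsBack f ω U

/-- Some open neighbourhood of `C` in `(ℝ²ⁿ, ω)` embeds symplectically in `(ℝ²ⁿ, ω₀)`. -/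
def EmbedsNear {n : ℕ} (ω : Form n) (C : Set (E n)) : Prop :=
  ∃ (f : E n → E n) (U : Set (E n)), IsOpen U ∧ C ⊆ U ∧ InjOn f U ∧ ImmersesNear ω U f

/-- `(ℝ²ⁿ, ω)` is symplectomorphic to `(ℝ²ⁿ, ω₀)`. -/
def GloballyStandard {n : ℕ} (ω : Form n) : Prop :=
  ∃ f g : E n → E n, SmoothOn f univ ∧ SmoothOn g univ ∧
    (∀ x, g (f x) = x) ∧ (∀ y, f (g y) = y) ∧ PullsBack f ω univ

/-- The derivative of the one-form `lam` at `x` in the direction `v`, evaluated at `w`. -/
noncomputable def dOne {n : ℕ} (lam : OneForm n) (x v w : E n) : ℝ := fderiv ℝ lam x v w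

/-- Smooth one-forms. -/
def IsSmoothOneForm {n : ℕ} (lam : OneForm n) : Prop := ContDiff ℝ ((⊤ : ℕ∞) : WithTop ℕ∞) lam

/-- The derivative of the function `H` at `x` in the direction `u`. -/
noncomputable def slope {n : ℕ} (H : E n → ℝ) (x u : E n) : ℝ := fderiv ℝ H x u

/-- Smooth functions. -/
def IsSmoothFunction {n : ℕ} (H : E n → ℝ) : Prop := ContDiff ℝ ((⊤ : ℕ∞) : WithTop ℕ∞) H

/-- `d lam = ω`. -/
def IsPrimitive {n : ℕ} (ω : Form n) (lam : OneForm n) : Prop :=
  ∀ x v w : E n, dOne lam x v w - dOne lam x w v = ω x ![v, w]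

/-- `u` is the Liouville vector at `x`: `ω (u, ·) = lam`. -/
def IsLiouvilleVector {n : ℕ} (ω : Form n) (lam : OneForm n) (x u : E n) : Prop :=
  ∀ v : E n, ω x ![u, v] = lam x v

/-- Liouville forms: `lam` is smooth, `d lam = ω`, and every compact set lies in `{H < m}` for a
smooth function `H` with `{H ≤ m}` compact that increases along the Liouville vectors on
`{H = m}`. -/
def IsLiouville {n : ℕ} (ω : Form n) (lam : OneForm n) : Prop :=
  IsSmoothOneForm lam ∧ IsPrimitive ω lam ∧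
  ∀ C : Set (E n), IsCompact C → ∃ (H : E n → ℝ) (m : ℝ),
    IsSmoothFunction H ∧ (∀ x ∈ C, H x < m) ∧ IsCompact {x | H x ≤ m} ∧
    ∀ x u : E n, H x = m → IsLiouvilleVector ω lam x u → 0 < slope H x u

/-- Complete integral curves of the Liouville field. -/
def IsLine {n : ℕ} (ω : Form n) (lam : OneForm n) (γ : ℝ → E n) : Prop :=
  ∀ t, ∃ u : E n, HasDerivAt γ u t ∧ IsLiouvilleVector ω lam (γ t) u

/-- The skeleton: the points on bounded complete integral curves of the Liouville field. -/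
def skeleton {n : ℕ} (ω : Form n) (lam : OneForm n) : Set (E n) :=
  {x | ∃ γ : ℝ → E n, γ 0 = x ∧ Bornology.IsBounded (range γ) ∧ IsLine ω lam γ}

/-- Null sets for the `2n`-dimensional Hausdorff measure. -/
def IsNull {n : ℕ} (s : Set (E n × E n)) : Prop :=
  Measure.hausdorffMeasure ((2 * n : ℕ) : ℝ) s = 0

/-- Every pair `x ≠ y` of points of `Z` with `f x = f y` has a neighbourhood whose intersection with
`Z × Z` is null for the `2n`-dimensional Hausdorff measure. -/
def SmallDoublePoints {n : ℕ} (f : E n → E n) (Z : Set (E n)) : Prop :=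
  ∀ x ∈ Z, ∀ y ∈ Z, x ≠ y → f x = f y → ∃ W ∈ 𝓝 ((x, y) : E n × E n), IsNull (W ∩ Z ×ˢ Z)

/-- Every compact set has a neighbourhood that embeds. -/
def CompactsEmbed {n : ℕ} (ω : Form n) : Prop :=
  ∀ C : Set (E n), IsCompact C → EmbedsNear ω C

/-- Some compact star-shaped set containing `K` has a neighbourhood that embeds. -/
def CoreEmbeds {n : ℕ} (ω : Form n) (K : Set (E n)) : Prop :=
  ∃ S : Set (E n), IsCompact S ∧ (∃ a ∈ S, StarConvex ℝ a S) ∧ K ⊆ S ∧ EmbedsNear ω S

/-- The skeleton of every Liouville form has a neighbourhood that embeds. -/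
def SkeletonsEmbed {n : ℕ} (ω : Form n) : Prop :=
  ∀ lam : OneForm n, IsLiouville ω lam → EmbedsNear ω (skeleton ω lam)

/-- Near the skeleton of some Liouville form there is an immersion with small double points on the
skeleton. -/
def ImmersedSkeleton {n : ℕ} (ω : Form n) : Prop :=
  ∃ (lam : OneForm n) (f : E n → E n), IsLiouville ω lam ∧
    ImmersesNear ω (skeleton ω lam) f ∧ SmallDoublePoints f (skeleton ω lam)

/-- Near the skeleton `Z` of some Liouville form there is an immersion, and `dim_H (Z × Z) < 2n`. -/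
def SmallSkeleton {n : ℕ} (ω : Form n) : Prop :=
  ∃ (lam : OneForm n) (f : E n → E n), IsLiouville ω lam ∧
    ImmersesNear ω (skeleton ω lam) f ∧
    dimH (skeleton ω lam ×ˢ skeleton ω lam) < ((2 * n : ℕ) : ℝ≥0∞)

/-- The skeleton of some Liouville form is a point near which there is an immersion. -/
def PointSkeleton {n : ℕ} (ω : Form n) : Prop :=
  ∃ (lam : OneForm n) (f : E n → E n) (p : E n), IsLiouville ω lam ∧
    skeleton ω lam = {p} ∧ ImmersesNear ω {p} f

/-- For a symplectic form `ω` which is standard off a compact set `K` of `ℝ²ⁿ`, `n ≥ 2`, the seven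
conditions are equivalent. -/
theorem result (n : ℕ) (hn : 2 ≤ n) (ω : Form n) (hω : IsSymplectic ω) (K : Set (E n))
    (hK : IsCompact K) (hstd : StandardOff ω K) :
    List.TFAE [GloballyStandard ω, CompactsEmbed ω, CoreEmbeds ω K, SkeletonsEmbed ω,
      ImmersedSkeleton ω, SmallSkeleton ω, PointSkeleton ω] := by
  obtain ⟨κ, hκ, hT⟩ := Pool.Agent.H60.Sy.exists_symp hω.1 hω.2.1 hω.2.2
  have hom : ∀ v w : E n, Pool.Agent.H60.Sy.om0 n v w = stdForm n v w := fun v w =>
    Pool.Agent.H60.Sy.om0_apply v w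
  have hκK : ∀ x ∉ K, κ x = Pool.Agent.H60.Sy.om0 n := by
    intro x hx
    refine ContinuousLinearMap.ext fun v => ContinuousLinearMap.ext fun w => ?_
    rw [hT, hom]
    exact hstd x hx v w
  obtain ⟨r, hr⟩ := hK.isBounded.subset_closedBall 0
  have him : ∀ (C : Set (E n)) (φ : E n → E n), ImmersesNear ω C φ →
      ∃ U : Set (E n), Pool.Agent.H60.Sk.Im κ U φ ∧ C ⊆ U := by
    rintro C φ ⟨U, hU, hCU, hs, hp⟩
    exact ⟨U, ⟨hU, hs, fun x hx v w => by rw [hom, hT]; exact hp x hx v w⟩, hCU⟩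
  have hsk : ∀ (lam : OneForm n) (a : E n),
      Pool.Agent.H60.Sk.Bl κ lam a ↔ a ∈ skeleton ω lam := by
    intro lam a
    constructor
    · rintro ⟨γ, h1, h2, h3⟩
      refine ⟨γ, h1, h3, fun t => ?_⟩
      obtain ⟨u, hu, hv⟩ := h2 t
      exact ⟨u, hu, fun v => by rw [← hT]; exact hv v⟩
    · rintro ⟨γ, h1, h3, h2⟩
      refine ⟨γ, h1, fun t => ?_, h3⟩
      obtain ⟨u, hu, hv⟩ := h2 t
      exact ⟨u, hu, fun v => by rw [hT]; exact hv v⟩
  have hfin : Module.finrank ℝ (Pool.Agent.H60.Sy.EE n) = 2 * n := by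
    rw [Module.finrank_prod, Module.finrank_fin_fun]; ring
  -- embedding of neighbourhoods of compact sets
  have hcore : ∀ (lam : OneForm n) (φ : E n → E n), IsLiouville ω lam →
      ImmersesNear ω (skeleton ω lam) φ → SmallDoublePoints φ (skeleton ω lam) →
      ∀ C : Set (E n), IsCompact C → EmbedsNear ω C := by
    rintro lam φ ⟨h1, h2, h3⟩ hφ h C hC
    obtain ⟨H, m, hH, hCm, hm, hout⟩ := h3 C hC
    obtain ⟨U, hI, hZU⟩ := him _ φ hφ
    have hdd : ∀ x, Pool.Agent.H60.Sy.dd lam x = κ x := by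
      intro x
      refine ContinuousLinearMap.ext fun v => ContinuousLinearMap.ext fun w => ?_
      rw [Pool.Agent.H60.Sy.dd_apply, hT]
      exact h2 x v w
    obtain ⟨ψ, hψ, hinj⟩ := Pool.Agent.H60.Sk.core_weak hκ h1 hdd hH hm
      (fun x hx => hout x _ hx fun v => by rw [← hT, Pool.Agent.H60.Sk.k_lf hκ])
      (fun a ha => (hsk lam a).1 ha) hI hZU (by
        intro x hx y hy hne he
        obtain ⟨W, hW, h0⟩ := h x hx y hy hne he
        refine ⟨W, hW, ?_⟩
        rw [hfin]
        exact h0)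
    exact ⟨ψ, {x | H x < m}, hψ.op, hCm, hinj, {x | H x < m}, hψ.op, Subset.rfl, hψ.sm,
      fun x hx v w => by
        unfold deriv
        rw [← hom, hψ.pb x hx, hT]⟩
  have h12 : GloballyStandard ω → ∀ C : Set (E n), EmbedsNear ω C := by
    rintro ⟨Φ, Ψ, h1, _, h3, _, h5⟩ C
    exact ⟨Φ, univ, isOpen_univ, subset_univ _, (Function.LeftInverse.injective h3).injOn,
      univ, isOpen_univ, Subset.rfl, h1, h5⟩
  have h23 : (∀ C : Set (E n), IsCompact C → EmbedsNear ω C) →
      ∃ S : Set (E n), IsCompact S ∧ (∃ a ∈ S, StarConvex ℝ a S) ∧ K ⊆ S ∧ EmbedsNear ω S := by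
    intro h
    exact ⟨closedBall 0 (max r 0), isCompact_closedBall _ _, ⟨0,
      mem_closedBall_self (le_max_right _ _),
      (convex_closedBall _ _).starConvex (mem_closedBall_self (le_max_right _ _))⟩,
      hr.trans (closedBall_subset_closedBall (le_max_left _ _)), h _ (isCompact_closedBall _ _)⟩
  have h31 : (∃ S : Set (E n), IsCompact S ∧ (∃ a ∈ S, StarConvex ℝ a S) ∧ K ⊆ S ∧
      EmbedsNear ω S) → GloballyStandard ω := by
    rintro ⟨S, hS, ⟨a, ha, hstar⟩, hKS, φ, U, hU, hSU, hinj, hφ⟩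
    obtain ⟨U', hI, hUU'⟩ := him _ φ hφ
    obtain ⟨F, hF⟩ := Pool.Agent.H60.Sz.main_star hn hκ hS ha hstar
      (fun x hx => hκK x fun h => hx (hKS h)) hU hSU (hI.sm.mono hUU') hinj
      (fun x hx v w => hI.pb x (hUU' hx) v w)
    refine ⟨F, F.symm, F.sm.contDiffOn, F.smi.contDiffOn, fun x => F.symm_apply_apply x,
      fun x => F.apply_symm_apply x, fun x _ v w => ?_⟩
    have h := congrFun hF x
    have h2 := congrArg (fun A : Pool.Agent.H60.Sy.B2 (E n) => A v w) h
    simp only [Pool.Agent.H60.Sy.pb_apply, hT] at h2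
    rw [← hom]; exact h2
  tfae_have 1 → 2 := fun h C _ => h12 h C
  tfae_have 2 → 3 := h23
  tfae_have 3 → 1 := h31
  tfae_have 1 → 4 := fun h lam _ => h12 h _
  tfae_have 4 → 5 := by
    intro h
    obtain ⟨lam, l1, l2, l3⟩ := Pool.Agent.H60.Sk.exists_prim hn hκ (r := r)
      (fun x hx => hκK x fun h => hx (hr h))
    have hl : IsLiouville ω lam := by
      refine ⟨l1, fun x v w => ?_, fun C hC => ?_⟩
      · unfold dOne
        rw [← Pool.Agent.H60.Sy.dd_apply, l2, hT]
      · have hC' : IsCompact (C ∪ closedBall (0 : E n) r ∪ {0}) :=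
          (hC.union (isCompact_closedBall _ _)).union isCompact_singleton
        obtain ⟨M, hM⟩ := hC'.bddAbove_image
          (Pool.Agent.H60.Sk.contDiff_sq (n := n)).continuous.continuousOn
        have hM' : ∀ x ∈ C ∪ closedBall (0 : E n) r ∪ {0}, Pool.Agent.H60.Sk.sq x ≤ M :=
          fun x hx => hM ⟨x, hx, rfl⟩
        refine ⟨Pool.Agent.H60.Sk.sq, M + 1, Pool.Agent.H60.Sk.contDiff_sq, fun x hx => ?_,
          Pool.Agent.H60.Sk.isCompact_sq _, fun x u hx hu => ?_⟩
        · have := hM' x (Or.inl (Or.inl hx))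
          linarith
        · have hxr : x ∉ closedBall (0 : E n) r := by
            intro hxr
            have := hM' x (Or.inl (Or.inr hxr))
            linarith
          have e : u = (1 / 2 : ℝ) • x := by
            rw [← l3 x hxr]
            exact Pool.Agent.H60.Sk.eq_lf hκ fun v => by rw [hT]; exact hu v
          have h0 : 0 ≤ M := by
            have h1 := hM' 0 (Or.inr rfl)
            have h2 : Pool.Agent.H60.Sk.sq (0 : E n) = 0 := by
              simp [Pool.Agent.H60.Sk.sq]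
            linarith
          unfold slope
          rw [e, map_smul, Pool.Agent.H60.Sk.fderiv_sq, hx, smul_eq_mul]
          linarith
    obtain ⟨φ, U, hU, hCU, hinj, U', hU', hUU', hs, hp⟩ := h lam hl
    exact ⟨lam, φ, hl, ⟨U', hU', hCU.trans hUU', hs, hp⟩, fun x hx y hy hne he =>
      absurd (hinj (hCU hx) (hCU hy) he) hne⟩
  tfae_have 5 → 2 := by
    rintro ⟨lam, φ, h1, h2, h3⟩
    exact hcore lam φ h1 h2 h3
  tfae_have 6 → 5 := by
    rintro ⟨lam, φ, h1, h2, h3⟩
    refine ⟨lam, φ, h1, h2, fun x _ y _ _ _ => ⟨univ, Filter.univ_mem, ?_⟩⟩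
    rw [univ_inter]
    unfold IsNull
    exact hausdorffMeasure_of_dimH_lt (d := ((2 * n : ℕ) : NNReal)) (by simpa using h3)
  tfae_have 1 → 7 := by
    rintro ⟨Φ, Ψ, h1, h2, h3, h4, h6⟩
    obtain ⟨F, hF⟩ : ∃ F : Pool.Agent.H60.Sy.Dif (E n), ∀ x, F x = Φ x :=
      ⟨Pool.Agent.H60.Sy.Dif.mk' Φ Ψ (contDiffOn_univ.1 h1) (contDiffOn_univ.1 h2) h3 h4,
        fun _ => rfl⟩
    have hFΦ : (fun x => F x) = Φ := funext hF
    have hpb : ∀ x v w, Pool.Agent.H60.Sy.om0 n (fderiv ℝ F x v) (fderiv ℝ F x w) = κ x v w := by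
      intro x v w
      have e : fderiv ℝ F x = fderiv ℝ Φ x := by rw [← hFΦ]
      rw [e, hom, hT]
      exact h6 x (mem_univ x) v w
    refine ⟨Pool.Agent.H60.Sk.lamP F, F, F.symm 0, ⟨Pool.Agent.H60.Sk.contDiff_lamP F, ?_, ?_⟩,
      ?_, univ, isOpen_univ, subset_univ _, F.sm.contDiffOn, fun x _ v w => ?_⟩
    · intro x v w
      unfold dOne
      rw [← Pool.Agent.H60.Sy.dd_apply, Pool.Agent.H60.Sk.dd_lamP, hpb, hT]
    · intro C hC
      have hc := (Pool.Agent.H60.Sk.contDiff_sq (n := n)).comp F.sm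
      have hC' : IsCompact (C ∪ {F.symm 0}) := hC.union isCompact_singleton
      obtain ⟨M, hM⟩ := hC'.bddAbove_image hc.continuous.continuousOn
      have hM' : ∀ x ∈ C ∪ {F.symm 0}, Pool.Agent.H60.Sk.sq (F x) ≤ M :=
          fun x hx => hM ⟨x, hx, rfl⟩
      refine ⟨fun x => Pool.Agent.H60.Sk.sq (F x), M + 1, hc, fun x hx => ?_, ?_,
        fun x u hx hu => ?_⟩
      · have := hM' x (Or.inl hx)
        linarith
      · have e : {x | Pool.Agent.H60.Sk.sq (F x) ≤ M + 1}
            = F.symm '' {y | Pool.Agent.H60.Sk.sq y ≤ M + 1} := by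
          ext x
          constructor
          · intro h
            exact ⟨F x, h, F.symm_apply_apply x⟩
          · rintro ⟨y, hy, rfl⟩
            change Pool.Agent.H60.Sk.sq (F (F.symm y)) ≤ M + 1
            rw [F.apply_symm_apply]
            exact hy
        rw [e]
        exact (Pool.Agent.H60.Sk.isCompact_sq _).image F.symm.continuous
      · have h0 : 0 ≤ M := by
          have h1 := hM' (F.symm 0) (Or.inr rfl)
          have h2 : Pool.Agent.H60.Sk.sq (F (F.symm 0)) = 0 := by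
            rw [F.apply_symm_apply]
            simp [Pool.Agent.H60.Sk.sq]
          linarith
        have h7 := Pool.Agent.H60.Sk.lamP_out F (x := x) (u := u)
          (fun v => by rw [hpb, hT]; exact hu v)
        have hx' : Pool.Agent.H60.Sk.sq (F x) = M + 1 := hx
        unfold slope
        rw [h7, hx']
        linarith
    · ext x
      rw [← hsk, mem_singleton_iff]
      constructor
      · rintro ⟨γ, g1, g2, g3⟩
        have h7 := Pool.Agent.H60.Sk.lamP_line F (γ := γ) (fun t => by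
          obtain ⟨u, hu, hv⟩ := g2 t
          exact ⟨u, hu, fun v => by rw [hpb]; exact hv v⟩) g3
        rw [← g1, ← h7, F.symm_apply_apply]
      · rintro rfl
        refine ⟨fun _ => F.symm 0, rfl, fun t => ⟨0, hasDerivAt_const _ _, fun v => ?_⟩, ?_⟩
        · rw [Pool.Agent.H60.Sk.lamP_apply, F.apply_symm_apply]
          simp
        · exact (Set.finite_range_const (c := F.symm 0)).isBounded
    · unfold deriv
      rw [← hom, hpb, hT]
  tfae_have 7 → 6 := by
    rintro ⟨lam, φ, p, h1, h2, h3⟩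
    refine ⟨lam, φ, h1, by rw [h2]; exact h3, ?_⟩
    rw [h2, singleton_prod_singleton, dimH_singleton]
    have h0 : 0 < 2 * n := by omega
    exact_mod_cast h0
  tfae_finish

end Pool.Agent.Results.MP_39f516_gt.LiouvilleSkeleton
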