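import Pool.Agent.H60.GMain

/-!
Bijectivity of `f ↦ P*(D)(P f)` on entire functions for every polynomial `P` whose leading
form has no critical point outside the origin.
-/

set_option autoImplicit false

namespace Pool.Agent.Results.MP_fbd3e7_an.NonsingularLeadingForm

/-- The operator `T_P : f ↦ P*(D)(P f)` on functions on `ℂⁿ`: the sum over the monomials `m` of
`P` of the conjugate coefficient times the `m`-th iterated partial derivative of `P f`. -/
noncomputable def T {n : ℕ} (P : MvPolynomial (Fin n) ℂ) (f : (Fin n → ℂ) → ℂ) :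
    (Fin n → ℂ) → ℂ :=
  fun z : Fin n → ℂ =>
    ∑ m ∈ P.support, (starRingEnd ℂ) (P.coeff m) *
      ((List.finRange n).foldr
        (fun (j : Fin n) (g : (Fin n → ℂ) → ℂ) =>
          (fun h : (Fin n → ℂ) → ℂ => fun w : Fin n → ℂ =>
            fderiv ℂ h w (Pi.single j (1 : ℂ) : Fin n → ℂ))^[m j] g)
        (fun w : Fin n → ℂ => MvPolynomial.eval w P * f w)) z

/-- The leading form of `P` (the sum of its terms of degree `P.totalDegree`) has no critical
point except possibly the origin. -/
def NonsingularLead {n : ℕ} (P : MvPolynomial (Fin n) ℂ) : Prop :=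
  ∀ z : Fin n → ℂ, z ≠ 0 → ∃ j : Fin n,
    MvPolynomial.eval z (MvPolynomial.pderiv j
      (MvPolynomial.homogeneousComponent P.totalDegree P)) ≠ 0

/-- For every nonzero polynomial `P` which is constant or whose leading form has no critical
point outside the origin, `T_P` is a bijection of the entire functions onto the entire
functions. -/
theorem result : ∀ n : ℕ, ∀ P : MvPolynomial (Fin n) ℂ, P ≠ 0 →
    (P.totalDegree = 0 ∨ NonsingularLead P) →
    Set.BijOn (T P) {f : (Fin n → ℂ) → ℂ | Differentiable ℂ f}
      {f : (Fin n → ℂ) → ℂ | Differentiable ℂ f} := by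
  intro n P hP hQ
  have h := Pool.Agent.H60.bij_generic hP hQ
  rw [Pool.Agent.H60.Tf_eq P] at h
  exact h

end Pool.Agent.Results.MP_fbd3e7_an.NonsingularLeadingForm
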